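import Pool.Agent.helper74.NL.Z
import Pool.Agent.helper24.BR.MBB
import Pool.Agent.helper57.V3.TMO
import Pool.Agent.helper78.NLS.All
import Pool.Agent.helper53.NLT.SMA
import Pool.Agent.helper15.NLT.SMB
import Pool.Agent.helper51.NLT.SMC
import Pool.Agent.helper40.NLT.AON
import Pool.Agent.helper14.NLT.CNV
import Pool.Agent.helper13.NLT.CSU
import Pool.Agent.helper70.NLT.CBK
import Pool.Agent.helper79.NLT.CMB
import Pool.Agent.helper34.NLT.INT
import Pool.Agent.helper72.NLT.XIB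
import Pool.Agent.helper23.NLT.ATT
import Pool.Agent.helper30.NLT.VIT
import Pool.Agent.helper82.NLT.ALP
import Pool.Agent.helper1.NLT.REP
import Pool.Agent.helper98.NLT.BAI
import Pool.Agent.helper87.NLT.HYI
import Pool.Agent.helper91.NLT.FIN

/-!
# Project nlt: (MP_70a088_an): assembly
-/

set_option autoImplicit false

noncomputable section

namespace NLT

theorem Z_SMA : SMA_stmt := SMA
theorem Z_SMB : SMB_stmt := SMB
theorem Z_SMC : SMC_stmt := SMC Z_SMA Z_SMB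
theorem Z_CNV : CNV_stmt := CNV
theorem Z_CSU : CSU_stmt := CSU
theorem Z_CBK : CBK_stmt := CBK Z_CNV
theorem Z_CMB : CMB_stmt := CMB Z_CNV Z_CSU Z_CBK
theorem Z_AON : AON_stmt := AON NLF.Z_REL NLF.Z_NZ
theorem Z_INT : INT_stmt := INT Z_SMA Z_SMC Z_AON Z_CMB NLS.FEQ_all NLF.LFI BR.MBB
theorem Z_XIB : XIB_stmt := XIB BR.MBB
theorem Z_ATT : ATT_stmt := ATT
theorem Z_VIT : VIT_stmt := VIT V3.TMO
theorem Z_ALP : ALP_stmt := ALP Z_XIB Z_ATT Z_VIT V3.TMO
theorem Z_REP : REP_stmt := REP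
theorem Z_BAI : BAI_stmt := BAI
theorem Z_HYI : HYI_stmt := HYI Z_XIB Z_ALP Z_REP Z_BAI
theorem Z_FIN : FIN_stmt := FIN Z_INT Z_HYI

end NLT
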