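import Pool.Agent.helper78.NLS.Spec

/-!
# Project nl: (MP_70a088_an): an invariant line field forces `c` into the interior of `M_n`; with the density theorem there is none

Page: /team-store/MP_70a088_NLPLAN_lead.md, sections 4 - 6 (simplified: no level sets, no injectivity, no section 5). The analytic input is `NLS.FEQ_stmt` (helper78).

THEOREM (`FIN_stmt`). If `M_n ⊆ closure(H_n)` for all `n ≥ 2` (frozen statement S05829) then `z ^ n + c` has no invariant line field, for all `n ≥ 2` and all `c`.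

PLAN. Part A: from the coefficients `ψ j`, `a j` of FEQ one gets for `‖t‖ < 1` the function `Ψ_t = ∑ t^j ψ_j`, holomorphic on the basin of infinity `Kᶜ` of `f = z^n + c`, with `Ψ_t (f z) = Ψ_t z ^ n + c(t)`, `c(t) = ∑ a_j t^j`, `c(0) = c`, `c'(0) = a_1 ≠ 0` (`NLF.REL`, `NLF.NZ`: proved).
Part B: `Ψ_t` has no zeros and no critical points on `Kᶜ` (a zero of `Ψ` or of `Ψ'` at `z` gives `Ψ'(f z) = 0`, so `Ψ'(f^k z) = 0` for all `k ≥ 1`, but `Ψ' ≈ 1` near infinity), and its image is backward invariant and contains a neighbourhood of infinity. So `0` does not escape under `z^n + c(t)`: `c(t) ∈ M_n`, and `c ∈ interior M_n`.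
Part C: `c ∈ interior M_n` and `c ∈ closure H_n` imply `c ∈ H_n` (Vitali, Baire, maximum principle). Part D: hyperbolic maps have Julia sets of area zero (`volume_juliaSet_pow`, proved).

RULES. File `Pool/Agent/<seat>/NLT/XX.lean`: `import Pool.Agent.helper44.NLT.Spec` (and any proved module you want to use), `set_option autoImplicit false`, `open Complex Metric Set Filter Topology MeasureTheory MPS`, `open Pool.Agent.helper98.ILF Pool.Agent.helper16.Multibrot`, `noncomputable section`, `namespace NLT`,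
`theorem XX (h : YY_stmt) ... : XX_stmt`. Hypotheses may be: other statements of this file (no circles), statements of `BR` (`MBB_stmt`: proved), `NLF` (`REL_stmt, NZ_stmt, LFI_stmt`: proved), `V3` (`TUL_stmt, TMO_stmt`: proved), `NLS.FEQ_stmt`. Auxiliary lemmas are prefixed `XX_`. No `sorry`, no straight double quotes in comments.
Useful proved lemmas (Pool/Agent/helper98/ILF/Poly.lean): `growth`, `growth_iterate`, `preimage_filled`, `filled_subset`, `isCompact_filled`, `exists_of_notMem_filled`, `juliaSet_subset`, `exists_trap`, `critical_mem_basin`, `volume_juliaSet_pow`; `no_line_field` (Julia.lean). Report a false statement to helper44 at once.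
-/

set_option autoImplicit false

open Complex Metric Set Filter Topology MeasureTheory MPS
open Pool.Agent.helper98.ILF Pool.Agent.helper16.Multibrot

noncomputable section

namespace NLT

/-! ## Definitions -/

/-- the critical orbit as a function of the parameter. -/
def xi (n k : ℕ) (c : ℂ) : ℂ := (fun z : ℂ => z ^ n + c)^[k] 0

/-- the coefficients given by `NLS.FEQ_stmt`. -/
structure Ser (n : ℕ) (c : ℂ) (ψ : ℕ → ℂ → ℂ) (a : ℕ → ℂ) (M : ℝ) : Prop where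
  hn : 2 ≤ n
  hc : c ∈ multibrot n
  z0 : ∀ z, ψ 0 z = z
  a0 : a 0 = c
  hM : 0 ≤ M
  dif : ∀ j, DifferentiableOn ℂ (ψ j) (filled n c)ᶜ
  bd : ∀ j, 1 ≤ j → ∀ z ∉ filled n c, ‖ψ j z‖ ≤ M / infDist z (filled n c)
  sym : ∀ j, ∀ z ∉ filled n c, ψ j (om n * z) = om n * ψ j z
  feq : ∀ j, ∀ z ∉ filled n c, ψ j (z ^ n + c) = NLS.Pc (fun i => ψ i z) n j + a j

/-- `Ψ_t z = ∑ t^j ψ_j z`. -/
def Ps (ψ : ℕ → ℂ → ℂ) (t z : ℂ) : ℂ := ∑' j : ℕ, t ^ j * ψ j z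

/-- `c(t) = ∑ a_j t^j`. -/
def cc (a : ℕ → ℂ) (t : ℂ) : ℂ := ∑' j : ℕ, t ^ j * a j

/-- `Ψ` semiconjugates `z^n + c` to `z^n + c'` on the basin of infinity of `z^n + c`, and is tangent to the identity at infinity. -/
structure Cj (n : ℕ) (c c' : ℂ) (Ψ : ℂ → ℂ) : Prop where
  hn : 2 ≤ n
  hc : c ∈ multibrot n
  dif : DifferentiableOn ℂ Ψ (filled n c)ᶜ
  feq : ∀ z ∉ filled n c, Ψ (z ^ n + c) = Ψ z ^ n + c'
  sym : ∀ z ∉ filled n c, Ψ (om n * z) = om n * Ψ z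
  nrm : ∃ B R : ℝ, ∀ z : ℂ, R ≤ ‖z‖ → ‖Ψ z - z‖ ≤ B

/-! ## A: the sums -/

/-- SMA (medium): the function `Ψ_t`.
PROOF. Fix `t ∈ ball 0 1`, `K = filled n c` (closed, nonempty, contained in `closedBall 0 (2 + ‖c‖)`). For `z ∉ K` let `d = infDist z K > 0` (`IsClosed.notMem_iff_infDist_pos`); for `w ∈ ball z (d/2)`: `infDist w K ≥ d/2`, so `‖t^j ψ j w‖ ≤ ‖t‖^j (2M/d)` for `j ≥ 1`.
Summability (also of the norms): compare with the geometric series. `DifferentiableOn` on `Kᶜ`: `differentiableOn_tsum_of_summable_norm` on `ball z (d/2)` (the term `j = 0` is `w`, bounded by `‖z‖ + d`; or separate it with `Summable.tsum_eq_zero_add`), which is a neighbourhood of `z`. Symmetry: termwise, `tsum_mul_left`.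
Near infinity: for `‖z‖ ≥ 3 + ‖c‖`: `infDist z K ≥ 1` (`filled_subset`), `Ψ z - z = ∑_(j ≥ 1) t^j ψ j z`, norm `≤ M ‖t‖/(1 - ‖t‖)`. -/
def SMA_stmt : Prop := ∀ (n : ℕ) (c : ℂ) (ψ : ℕ → ℂ → ℂ) (a : ℕ → ℂ) (M : ℝ), Ser n c ψ a M → ∀ t ∈ ball (0 : ℂ) 1,
  (∀ z ∉ filled n c, Summable (fun j => ‖t ^ j * ψ j z‖)) ∧
  DifferentiableOn ℂ (Ps ψ t) (filled n c)ᶜ ∧
  (∀ z ∉ filled n c, Ps ψ t (om n * z) = om n * Ps ψ t z) ∧
  ∃ B R : ℝ, ∀ z : ℂ, R ≤ ‖z‖ → ‖Ps ψ t z - z‖ ≤ B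

/-- SMB (medium): powers of the sum.
PROOF. Induction on `m`. `m = 0`: `NLS.Pc b 0 j = if j = 0 then 1 else 0`: the sum is `1` (`tsum_eq_single`, norms summable: finite support). Step: `NLS.Pc b (m+1) j = ∑ i ∈ range (j+1), Pc b m i * b (j - i)`, so `t^j Pc b (m+1) j = ∑ i ∈ range (j+1), (t^i Pc b m i)(t^(j-i) b (j-i))`:
Cauchy product: `tsum_mul_tsum_eq_tsum_sum_range_of_summable_norm` and `summable_norm_sum_mul_range_of_summable_norm`. -/
def SMB_stmt : Prop := ∀ (b : ℕ → ℂ) (t : ℂ), Summable (fun j => ‖t ^ j * b j‖) → ∀ m : ℕ,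
  Summable (fun j => ‖t ^ j * NLS.Pc b m j‖) ∧ ∑' j : ℕ, t ^ j * NLS.Pc b m j = (∑' j : ℕ, t ^ j * b j) ^ m

/-- SMC (medium): the functional equation and `c(t)`. Uses SMA, SMB.
PROOF. For `z ∉ K` also `z^n + c ∉ K` (`preimage_filled`). `t^j a j = t^j ψ j (z^n+c) - t^j Pc (fun i => ψ i z) n j` (`Ser.feq`): summable with norms, and the sum is `Ps ψ t (z^n + c) - (Ps ψ t z)^n` (SMB with `b i = ψ i z`). (A point `z ∉ K` exists: `z = 5 + ‖c‖`, `filled_subset`.)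
Differentiability of `cc a` on `ball 0 1`: for `‖t‖ < 1` choose `‖t‖ < s < 1`: `∑ ‖a j‖ s^j < ∞` by the first part for `t = s`; `differentiableOn_tsum_of_summable_norm` on `ball 0 s` with bound `s^j ‖a j‖`. `cc a 0 = a 0 = c`. `deriv (cc a) 0 = a 1`: `hasSum`/power series: `cc a t = a 0 + t a 1 + t² g t` with `g t = ∑ t^j a (j+2)` bounded on `ball 0 (1/2)`
(or `HasFPowerSeriesOnBall` for `FormalMultilinearSeries.ofScalars`). -/
def SMC_stmt : Prop := ∀ (n : ℕ) (c : ℂ) (ψ : ℕ → ℂ → ℂ) (a : ℕ → ℂ) (M : ℝ), Ser n c ψ a M →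
  (∀ t ∈ ball (0 : ℂ) 1, Summable (fun j => ‖t ^ j * a j‖) ∧ ∀ z ∉ filled n c, Ps ψ t (z ^ n + c) = Ps ψ t z ^ n + cc a t) ∧
  DifferentiableOn ℂ (cc a) (ball 0 1) ∧ cc a 0 = c ∧ HasDerivAt (cc a) (a 1) 0

/-- AON (short/medium): the first coefficient. Uses `NLF.REL_stmt`, `NLF.NZ_stmt`.
PROOF. `[t^1]` of the `m`-th power of a series `b` is `m (b 0)^(m-1) (b 1)` (induction on `m`; `Pc b m 0 = b 0 ^ m`). So `ψ 1 (f z) = n z^(n-1) ψ 1 z + a 1` for `z ∉ K`. With `ψ 1 z = (1/π) ∫ μ w/(z-w) = -(1/π) CT μ z` (`NLF.CT μ b = ∫ μ z/(z - b)`) and REL (`fd n z * CT μ z = CT μ (z^n+c) - CT μ c`, `fd n z = n z^(n-1)`): `a 1 = -(1/π) CT μ c ≠ 0` (NZ). -/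
def AON_stmt : Prop := ∀ (n : ℕ) (c : ℂ) (ψ : ℕ → ℂ → ℂ) (a : ℕ → ℂ) (M : ℝ) (μ : ℂ → ℂ), Ser n c ψ a M → NLF.LF n c μ →
  0 < volume {z | μ z ≠ 0} → (∀ z ∉ filled n c, ψ 1 z = (1 / Real.pi) * ∫ w : ℂ, μ w / (z - w)) → a 1 ≠ 0

/-! ## B: the semiconjugacy -/

/-- CNV (medium): no zeros and no critical points.
PROOF. Let `K = filled n c`, `Ω = Kᶜ`, open, `f Ω ⊆ Ω` (`preimage_filled`), `0 ∈ K` (`BR.MBB_stmt` may be used: the critical orbit is bounded by `2 ≤ 2 + ‖c‖`). Differentiate `Ψ (z^n + c) = Ψ z ^ n + c'` on the open set `Ω`: `Ψ'(f z) · n z^(n-1) = n Ψ z ^(n-1) Ψ' z`.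
If `Ψ z = 0` or `Ψ' z = 0` then the right side is `0` (`n ≥ 2`), `z ≠ 0`, so `Ψ'(f z) = 0`. Induction: `Ψ'(f^k z) = 0` for all `k ≥ 1`. `‖f^k z‖ → ∞` (`exists_of_notMem_filled`). But for `‖w‖` large (`‖w‖ ≥ R + 4|B| + 4 + ‖c‖ + 4`) the function `Ψ - id` is holomorphic and bounded by `|B|` on `ball w (4|B| + 4) ⊆ Ω`
(`filled_subset`): Cauchy (`Complex.norm_deriv_le_of_forall_mem_sphere_norm_le`, radius `4|B| + 2`): `‖Ψ' w - 1‖ ≤ |B|/(4|B| + 2) < 1`, so `Ψ' w ≠ 0`. -/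
def CNV_stmt : Prop := ∀ (n : ℕ) (c c' : ℂ) (Ψ : ℂ → ℂ), Cj n c c' Ψ → ∀ z ∉ filled n c, Ψ z ≠ 0 ∧ deriv Ψ z ≠ 0

/-- CSU (short/medium): the image contains a neighbourhood of infinity.
PROOF. `B ≥ 1`, `R ≥ 3 + ‖c‖` after enlarging. For `‖w‖ ≥ R + 7 B`: `closedBall w (6B) ⊆ Ω ∩ {‖z‖ ≥ R}`. For `z ∈ sphere w (6B)`: `‖Ψ z - Ψ w‖ ≥ 6B - 2B = 4B` (so `Ψ` is not constant near `w`: identity theorem on the ball and continuity). `DiffContOnCl.ball_subset_image_closedBall` (`ε = 4B`): `ball (Ψ w) (2B) ⊆ Ψ '' closedBall w (6B)`, and `w ∈ ball (Ψ w) (2B)`. -/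
def CSU_stmt : Prop := ∀ (n : ℕ) (c c' : ℂ) (Ψ : ℂ → ℂ), Cj n c c' Ψ → ∃ R : ℝ, ∀ w : ℂ, R ≤ ‖w‖ → ∃ z ∉ filled n c, Ψ z = w

/-- CBK (short/medium): the image is backward invariant. Uses CNV.
PROOF. `Ψ u = w^n + c'`, `u ∉ K`. Choose `z` with `z^n = u - c` (`IsAlgClosed.exists_pow_nat_eq`), `z^n + c = u ∉ K`, so `z ∉ K` (`preimage_filled`). `Ψ z ^ n = Ψ u - c' = w^n`, `Ψ z ≠ 0` (CNV). So `(w/Ψ z)^n = 1`, `w/Ψ z = om n ^ l` (`om n` is a primitive `n`-th root of unity: `Complex.isPrimitiveRoot_exp`, `IsPrimitiveRoot.eq_pow_of_pow_eq_one`),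
`w = Ψ (om n ^ l * z)` (symmetry, `l` times; `om n ^ i * z ∉ K` because `(om n ^ i * z)^n + c = u`). -/
def CBK_stmt : Prop := ∀ (n : ℕ) (c c' : ℂ) (Ψ : ℂ → ℂ), Cj n c c' Ψ → ∀ w : ℂ, (∃ u ∉ filled n c, Ψ u = w ^ n + c') →
  ∃ z ∉ filled n c, Ψ z = w

/-- CMB (short): `c' ∈ M_n`. Uses CNV, CSU, CBK.
PROOF. If not, `‖g^k 0‖ → ∞`, `g z = z^n + c'`; `k` with `R ≤ ‖g^k 0‖` (CSU): `g^k 0 ∈ Ψ '' Kᶜ`. By CBK and downward induction `g^j 0 ∈ Ψ '' Kᶜ` for all `j ≤ k`; `j = 0`: `0 = Ψ z`: contradiction to CNV. -/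
def CMB_stmt : Prop := ∀ (n : ℕ) (c c' : ℂ) (Ψ : ℂ → ℂ), Cj n c c' Ψ → c' ∈ multibrot n

/-- INT (medium): `c` is an interior point of `M_n`. Uses SMA, SMC, AON, CMB, `NLS.FEQ_stmt`, `NLF.LFI_stmt`, `BR.MBB_stmt`.
PROOF. `μ` the line field; LFI: `LF n c μ`, `‖c‖ ≤ 3`, positive area; `{μ ≠ 0} ⊆ juliaSet ⊆ filled` (`juliaSet_subset`: `J ⊆ frontier filled ⊆ filled`). `filled n c ⊆ ball 0 4`: `‖c‖ ≤ 2` (MBB), points `z` with `‖z‖ ≥ 4 = 2 + 2 ≥ 2 + ‖c‖` have growing orbits (`growth`, as in `preimage_filled`; if `‖z‖ ≥ 4` then `‖z^n + c‖ ≥ 8 > 2 + ‖c‖`).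
FEQ: `ψ, a, M`: `Ser n c ψ a M`. For `t ∈ ball 0 1`: `Cj n c (cc a t) (Ps ψ t)` (SMA, SMC), so `cc a t ∈ multibrot n` (CMB). `a 1 ≠ 0` (AON). `cc a` is holomorphic on `ball 0 1` (strictly differentiable at `0`: `DifferentiableOn.analyticAt`), `HasStrictDerivAt.map_nhds_eq`: `multibrot n ∈ 𝓝 (cc a 0) = 𝓝 c`. -/
def INT_stmt : Prop := ∀ (n : ℕ) (c : ℂ), 2 ≤ n → c ∈ multibrot n → HasInvariantLineField (fun z : ℂ => z ^ n + c) →
  c ∈ interior (multibrot n)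

/-! ## C: interior of `M_n` and closure of `H_n` -/

/-- XIB (short): the critical orbit. Uses `BR.MBB_stmt`.
PROOF. `Function.iterate_succ_apply'`; induction; MBB. The last statement (`xi` is strictly increasing at `c = 1`): `xi n k 1 = r k` with `r 0 = 0`, `r (k+1) = r k ^ n + 1`, `r k ≥ 0`, `r (k+1) > r k` (for `r k < 1`: clear; for `r k ≥ 1`: `r k ^ n ≥ r k`). If two entire functions `xi n (m+p)`, `xi n m` agree on a ball, they agree at `1`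
(identity theorem: `AnalyticOnNhd.eqOn_of_preconnected_of_eventuallyEq`), contradiction. -/
def XIB_stmt : Prop := ∀ n : ℕ, 2 ≤ n → (∀ (k : ℕ) (c : ℂ), xi n (k + 1) c = xi n k c ^ n + c) ∧ (∀ k, Differentiable ℂ (xi n k)) ∧
  (∀ c ∈ multibrot n, ∀ k, ‖xi n k c‖ ≤ 2) ∧
  (∀ (k p : ℕ) (c : ℂ), (fun z : ℂ => z ^ n + c)^[p] (xi n k c) = xi n (k + p) c) ∧
  ∀ (m p : ℕ) (c : ℂ) (δ : ℝ), 1 ≤ p → 0 < δ → ¬ ∀ x ∈ ball c δ, xi n (m + p) x = xi n m x

/-- ATT (medium/long): near a hyperbolic parameter the critical orbit converges to an attracting cycle, with a fixed period.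
PROOF. `z₀, p` with `f^p z₀ = z₀`, `‖(f^p)' z₀‖ < q < 1` for `f z = z^n + c₁`. The maps `(x, z) ↦ F x z = (z^n + x)^[p] z` and `(x, z) ↦ ∂_z F` are continuous (`∂_z F = ∏_(i<p) n (F_i)^(n-1)`; `MPS.mlt`, or induction on `p`). So there are `ρ, δ₁ > 0` with `‖∂_z F x z‖ ≤ q` for `‖z - z₀‖ ≤ ρ`, `‖x - c₁‖ < δ₁`,
and (after shrinking `δ₁`) `‖F x z₀ - z₀‖ ≤ (1 - q) ρ`. So `F x` is `q`-Lipschitz on the convex set `closedBall z₀ ρ` (`Convex.norm_image_sub_le_of_norm_deriv_le`) and maps it into itself. `critical_mem_basin` (radius `ρ/2`): `f^j c₁ ∈ ball z₀ (ρ/2)`, i.e. `xi n (j+1) c₁ ∈ ball z₀ (ρ/2)`; by continuity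
`xi n (j+1) x ∈ ball z₀ ρ` for `‖x - c₁‖ < δ`. `xi n (j+1+kp) x = (F x)^[k] (xi n (j+1) x)` converges (contraction: `ContractingWith` on the complete set, or directly: Cauchy sequence, `‖y_(k+1) - y_k‖ ≤ q^k ‖y_1 - y_0‖`) to a fixed point `z ∈ closedBall z₀ ρ` of `F x`. -/
def ATT_stmt : Prop := ∀ (n : ℕ) (c₁ : ℂ), 2 ≤ n → c₁ ∈ hyperbolic n → ∃ (p j : ℕ) (δ : ℝ), 1 ≤ p ∧ 0 < δ ∧
  ∀ x ∈ ball c₁ δ, ∃ z : ℂ, Tendsto (fun k : ℕ => xi n (j + k * p) x) atTop (𝓝 z) ∧ (fun w : ℂ => w ^ n + x)^[p] z = z ∧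
    ‖deriv ((fun w : ℂ => w ^ n + x)^[p]) z‖ < 1

/-- VIT (medium): Vitali. Uses `V3.TMO_stmt`.
PROOF. `tendsto_iff_ultrafilter`: let `U ≤ atTop` be an ultrafilter. TMO on `ball c r`: `F` holomorphic, `G k → F` along `U` locally uniformly, so pointwise. `F = 0` on `ball c₁ δ ∩ ball c r`, a neighbourhood of `c₁`; identity theorem on the (convex) ball: `F = 0` on `ball c r`. -/
def VIT_stmt : Prop := ∀ (G : ℕ → ℂ → ℂ) (c c₁ : ℂ) (r δ B : ℝ), 0 < δ → c₁ ∈ ball c r → (∀ k, DifferentiableOn ℂ (G k) (ball c r)) →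
  (∀ k, ∀ x ∈ ball c r, ‖G k x‖ ≤ B) → (∀ x ∈ ball c₁ δ, Tendsto (fun k => G k x) atTop (𝓝 0)) →
  ∀ x ∈ ball c r, Tendsto (fun k => G k x) atTop (𝓝 0)

/-- ALP (medium): the limit cycle as a function of the parameter. Uses XIB, ATT, VIT, `V3.TMO_stmt`.
PROOF. `p, j, δ` from ATT. `G k x = xi n (j + (k+1) p) x - xi n (j + k p) x`, bounded by `4` on `ball c r ⊆ multibrot n` (XIB), tends to `0` on `ball c₁ δ`, so by VIT on `ball c r`. `U = Filter.hyperfilter ℕ`; TMO for `fun k => xi n (j + k p)`: `α`, holomorphic on `ball c r`, `xi n (j + k p) x → α x` along `U`.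
`f_x^p (α x) = lim_U xi n (j + k p + p) x = α x` (continuity, XIB, `G k x → 0`, `U ≤ atTop`: `Nat.hyperfilter_le_atTop`). Cluster point: a `U`-limit is a cluster point (`U ≤ atTop`: every set `{k ≥ K}` is in `U`). On `ball c₁ δ ∩ ball c r`: the limit `z` of ATT equals `α x` (uniqueness of limits along `U`), so the multiplier is `< 1`.
The multiplier `x ↦ deriv (f_x^p) (α x)` is holomorphic: `= ∏_(i<p) n (f_x^i (α x))^(n-1)` (chain rule, induction on `p`; `MPS.mlt`), and `x ↦ f_x^i (α x)` is holomorphic (induction). -/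
def ALP_stmt : Prop := ∀ (n : ℕ) (c c₁ : ℂ) (r : ℝ), 2 ≤ n → ball c r ⊆ multibrot n → c₁ ∈ ball c r → c₁ ∈ hyperbolic n →
  ∃ (p j : ℕ) (α : ℂ → ℂ), 1 ≤ p ∧ DifferentiableOn ℂ α (ball c r) ∧
    DifferentiableOn ℂ (fun x => deriv ((fun w : ℂ => w ^ n + x)^[p]) (α x)) (ball c r) ∧
    ‖deriv ((fun w : ℂ => w ^ n + c₁)^[p]) (α c₁)‖ < 1 ∧
    ∀ x ∈ ball c r, (fun w : ℂ => w ^ n + x)^[p] (α x) = α x ∧
      Tendsto (fun k : ℕ => xi n (j + (k + 1) * p) x - xi n (j + k * p) x) atTop (𝓝 0) ∧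
      ∀ ε > (0 : ℝ), ∀ K : ℕ, ∃ k ≥ K, ‖xi n (j + k * p) x - α x‖ < ε

/-- REP (medium, pure): an orbit with differences tending to `0` which accumulates at a repelling fixed point lands there.
PROOF. `1 < κ < ‖h' z₀‖`; `δ > 0` with `‖h y - z₀‖ ≥ κ‖y - z₀‖` for `‖y - z₀‖ ≤ δ` (`HasDerivAt`, little o). `K` with `‖x (k+1) - x k‖ < δ(κ-1)/κ` for `k ≥ K`; `k₁ ≥ K` with `‖x k₁ - z₀‖ < δ`. Suppose `x k ≠ z₀` for all `k`. If `‖x k - z₀‖ ≤ δ` for all `k ≥ k₁` then `‖x k - z₀‖ ≥ κ^(k-k₁) ‖x k₁ - z₀‖`, unbounded: contradiction.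
So there is `k ≥ k₁` with `d = ‖x k - z₀‖ ≤ δ < ‖x (k+1) - z₀‖` (`Nat.find`). `‖x (k+1) - x k‖ ≥ max (δ - d) ((κ-1) d) ≥ δ(κ-1)/κ`: contradiction. -/
def REP_stmt : Prop := ∀ (h : ℂ → ℂ) (z₀ : ℂ) (x : ℕ → ℂ), DifferentiableAt ℂ h z₀ → h z₀ = z₀ → 1 < ‖deriv h z₀‖ →
  (∀ k, x (k + 1) = h (x k)) → Tendsto (fun k => x (k + 1) - x k) atTop (𝓝 0) →
  (∀ ε > (0 : ℝ), ∀ K : ℕ, ∃ k ≥ K, ‖x k - z₀‖ < ε) → ∃ k, x k = z₀

/-- BAI (short/medium, pure): Baire and the identity theorem.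
PROOF. `closedBall c₂ ε ⊆ ball c r`. The sets `E k = {x ∈ closedBall c₂ ε | F k x = α x}` are closed and cover the closed ball (a complete metric space, so a Baire space; `nonempty_interior_of_iUnion_of_closed` in the subtype). So some `E k` contains a nonempty open subset of the subtype, hence an open set of `ℂ` (it contains a point of the open ball).
Identity theorem on `ball c r` for `F k - α`. -/
def BAI_stmt : Prop := ∀ (F : ℕ → ℂ → ℂ) (α : ℂ → ℂ) (c c₂ : ℂ) (r ε : ℝ), 0 < ε → closedBall c₂ ε ⊆ ball c r →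
  (∀ k, DifferentiableOn ℂ (F k) (ball c r)) → DifferentiableOn ℂ α (ball c r) → (∀ x ∈ closedBall c₂ ε, ∃ k, F k x = α x) →
  ∃ k, ∀ x ∈ ball c r, F k x = α x

/-- HYI (medium): hyperbolicity spreads over the interior of `M_n`. Uses XIB, ALP, REP, BAI.
PROOF. `p, j, α` from ALP, `lam x = deriv (f_x^p) (α x)`. (1) `‖lam x‖ ≤ 1` on `ball c r`: otherwise `1 < ‖lam‖` on a closed ball `closedBall c₂ ε ⊆ ball c r` (continuity). For `x` there: REP with `h = f_x^p`, `z₀ = α x`, the sequence `k ↦ xi n (j + k p) x` (XIB): some `k` with `xi n (j + k p) x = α x`. BAI: some `k` with `xi n (j + k p) = α` on `ball c r`;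
then `xi n (j + k p + p) x = f_x^p (α x) = α x = xi n (j + k p) x` on `ball c r`: contradiction to the last part of XIB. (2) `‖lam c₁‖ < 1`. If `‖lam c‖ = 1` then `‖lam‖` has a maximum on `ball c r` at `c`, so `lam` is constant on the ball (`Complex.eqOn_of_isPreconnected_of_isMaxOn_norm`): contradiction at `c₁`. So `‖lam c‖ < 1`: `c ∈ hyperbolic n` (`z = α c`, `k = p`). -/
def HYI_stmt : Prop := ∀ (n : ℕ) (c : ℂ), 2 ≤ n → c ∈ interior (multibrot n) → c ∈ closure (hyperbolic n) → c ∈ hyperbolic n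

/-! ## D: the theorem -/

/-- FIN (short): THE THEOREM. Uses INT, HYI; `volume_juliaSet_pow`, `no_line_field`, `growth` (proved).
PROOF. Let `f = z^n + c` have an invariant line field. If `c ∉ filled n c`: `volume_juliaSet_pow` and `no_line_field`: contradiction. So the orbit of `c`, hence of `0`, is bounded and `c ∈ multibrot n`. INT: `c ∈ interior (multibrot n)`; density: `c ∈ closure (hyperbolic n)`; HYI: `c ∈ hyperbolic n`, so `HasAttractingCycle`: `volume_juliaSet_pow`, `no_line_field`: contradiction. -/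
def FIN_stmt : Prop := (∀ n : ℕ, 2 ≤ n → ∀ c ∈ multibrot n, c ∈ closure (hyperbolic n)) →
  ∀ n : ℕ, 2 ≤ n → ∀ c : ℂ, ¬ HasInvariantLineField (fun z : ℂ => z ^ n + c)

end NLT
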